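import Mathlib
import Pool.Agent.H81.SC.Thresh

set_option autoImplicit false

namespace Pool.Agent.Results.MP_c57dc8_lc.Threshold

open Pool.Agent.H81.SC

/-- The threshold for depth and negligibility of shift-complex classes. Here `tw` is the tower
function `1, 2, 4, 16, 65536, ...` and `nls n` is the maximum of `m / (1 + log* m)` over `m ≤ n`.
(1) If `∑ f (tw k) / tw k = ∞`, then `SC(f, c)` is deep and negligible for every `c`.
(2) If the sum is finite and `f n / n` is nonincreasing up to a constant factor, then for all large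
`c` the class `SC(f, c)` is neither negligible nor deep.
(3) `nls` is a sublinear order function as in (1).
(4) For every `g n ≤ C n / log₂ n` and all large `c` the class `SC(g, c)` is neither negligible nor
deep. -/
theorem result :
    (∀ f : ℕ → ℕ, Computable f → ¬ Summable (fun k => (f (tw k) : ℝ) / tw k) →
      ∀ U : List Bool →. List Bool, IsUniversalMachine U → ∀ c : ℕ,
        IsNegligible (ShiftComplex U (fun n => (f n : ℝ)) c) ∧
        ∀ M : List Bool → ℝ, IsUniversalSemimeasure M →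
          IsDeep M (ShiftComplex U (fun n => (f n : ℝ)) c)) ∧
    (∀ f : ℕ → ℕ, IsOrder f → Summable (fun k => (f (tw k) : ℝ) / tw k) →
      (∃ C m₀ : ℕ, ∀ m n, m₀ ≤ m → m ≤ n → f n * m ≤ C * f m * n) →
      ∀ U : List Bool →. List Bool, IsUniversalMachine U → ∃ c₀ : ℕ, ∀ c, c₀ ≤ c →
        ¬ IsNegligible (ShiftComplex U (fun n => (f n : ℝ)) c) ∧
        ∀ M : List Bool → ℝ, IsUniversalSemimeasure M →
          ¬ IsDeep M (ShiftComplex U (fun n => (f n : ℝ)) c)) ∧
    (IsOrder nls ∧ Filter.Tendsto (fun n : ℕ => (nls n : ℝ) / n) Filter.atTop (nhds 0) ∧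
      ¬ Summable (fun k => (nls (tw k) : ℝ) / tw k)) ∧
    (∀ (C : ℝ) (g : ℕ → ℝ) (n₀ : ℕ), (∀ n, n₀ ≤ n → g n ≤ C * (n / Real.logb 2 n)) →
      ∀ U : List Bool →. List Bool, IsUniversalMachine U → ∃ c₀ : ℕ, ∀ c, c₀ ≤ c →
        ¬ IsNegligible (ShiftComplex U g c) ∧
        ∀ M : List Bool → ℝ, IsUniversalSemimeasure M → ¬ IsDeep M (ShiftComplex U g c)) := by
  refine ⟨?_, ?_, ⟨isOrder_nls, nls_tendsto, nls_divergent⟩, ?_⟩
  · intro f hfc hf U hU c
    exact ⟨G.negligible_of_divergent hU hfc hf c,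
      fun M hM => G.deep_of_divergent hU hM.1 hM.2.1 hfc hf c⟩
  · rintro f hf hs ⟨C, m₀, hreg⟩ U hU
    exact below_threshold_regular hf hreg hs hU
  · intro C g n₀ hg U hU
    exact below_threshold_log hg hU

end Pool.Agent.Results.MP_c57dc8_lc.Threshold
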